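import Pool.Agent.STP.Two
import Pool.Agent.STP.Bad
import Pool.Agent.STP.Cnt
import Pool.Agent.STS.SumL
import Pool.Agent.STS.PthL
import Pool.Agent.STS.CylL
import Pool.Agent.STS.NodL
import Pool.Agent.STS.Scl
import Pool.Agent.STS.Afd
import Pool.Agent.STS.Tri
import Pool.Agent.STH.One
import Pool.Agent.STH.Cls
import Pool.Agent.STH.Tup
import Pool.Agent.STH.Bal
import Pool.Agent.STH.Cyl
import Pool.Agent.STH.Nod
import Pool.Agent.STD.Den
import Pool.Agent.STD.Grd
import Pool.Agent.SFR.Sup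
import Pool.Agent.SFR.WlkG
import Pool.Agent.SFR.Opt
import Pool.Agent.SFP.Cov
import Pool.Agent.SFP.DecC
import Pool.Agent.SFP.Enc
import Pool.Agent.SFP.FinX
import Pool.Agent.SFP.Haf
import Pool.Agent.SFP.KWC
import Pool.Agent.SFP.Mat
import Pool.Agent.SFP.Prm
import Pool.Agent.SFP.Sbc
import Pool.Agent.SFP.SupK
import Pool.Agent.SFP.Thn
import Pool.Agent.SFP.Yan
import Pool.Agent.SFF.Gen
import Pool.Agent.SFF.Bnd
import Pool.Agent.SFF.Blk
import Pool.Agent.SFF.Box
import Pool.Agent.SFF.Asm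
import Pool.Agent.SFF.Fin
import Pool.Agent.SFF.Onc

/-!
# MP_4ed1f9_lc: numerically stable algorithms for weighted #SAT need exponential time

In floating point arithmetic every operation has a relative error. Since weighted model counting is
well-conditioned (a relative error `η` of the weights changes the result by a factor between
`(1 - η) ^ n` and `(1 + η) ^ n`), an algorithm which is numerically stable computes the weighted
number of models up to a constant factor for all positive weights, in spite of its rounding errors.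
All such algorithms need exponential time, with the exponent of the Strong Exponential Time
Hypothesis, while in exact arithmetic a single signed sum over the models of a 2-CNF is enough. The
algorithms are straight-line programs with additions, subtractions, products, and with calls of
oracles for signed weighted counting problems, such as determinants, permanents and Pfaffians.
-/

set_option autoImplicit false

namespace Pool.Agent.Results.MP_4ed1f9_lc.StableAlgorithms

/-- A formula with `M` clauses in `n` variables: a sequence of `M` clauses, a clause being a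
sequence of `k` literals; the literal `(i, b)` is true at `x` if `x i = b`. -/
abbrev Formula (n k M : ℕ) := Fin M → Fin k → Fin n × Bool

/-- The point `x` is a model of `φ`. -/
def Sat {n k M : ℕ} (φ : Formula n k M) (x : Fin n → Bool) : Prop :=
  ∀ i, ∃ j, x (φ i j).1 = (φ i j).2

open Classical in
/-- The weighted number of the points of `F`, where the literal `(i, b)` has the weight `w i b`. -/
noncomputable def weight {n : ℕ} (F : (Fin n → Bool) → Prop) (w : Fin n → Bool → ℝ) : ℝ :=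
  ∑ x : Fin n → Bool, if F x then ∏ i, w i (x i) else 0

/-- The set `A` is closed under an operation `t` of three arguments which acts coordinatewise, and
which is in every coordinate one of the four operations of Schaefer: conjunction or disjunction (of
the last two arguments), majority, sum modulo 2. This is the case for the sets of solutions of Horn
formulas, dual Horn formulas, renamable Horn formulas, 2-CNFs and systems of linear equations
modulo 2, and for the projections of such sets. -/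
def SchaeferClosed {N : ℕ} (A : (Fin N → Bool) → Prop) : Prop :=
  ∃ t : Fin N → Bool → Bool → Bool → Bool,
    (∀ i, (∀ a b c, t i a b c = (b && c)) ∨ (∀ a b c, t i a b c = (b || c)) ∨
      (∀ a b c, t i a b c = ((a && b) || (a && c) || (b && c))) ∨
      (∀ a b c, t i a b c = (a ^^ b ^^ c))) ∧
    ∀ x y w, A x → A y → A w → A fun i => t i (x i) (y i) (w i)

/-- `ψ` is a union of at most `2 ^ m` sets closed under operations of Schaefer. (For example, `ψ`
depends on at most `m` variables.) -/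
def SchaeferUnion (m : ℕ) {N : ℕ} (ψ : (Fin N → Bool) → Prop) : Prop :=
  ∃ A : Fin (2 ^ m) → (Fin N → Bool) → Prop, (∀ l, SchaeferClosed (A l)) ∧
    ∀ y, ψ y ↔ ∃ l, A l y

/-- `ψ` is the set of the models of a 2-CNF. -/
def TwoCNF {N : ℕ} (ψ : (Fin N → Bool) → Prop) : Prop :=
  ∃ (M : ℕ) (χ : Formula N 2 M), ∀ y, ψ y ↔ Sat χ y

/-- There are `q` properties of the elements of `ψ` such that for all weights `g` the elements of `ψ`
which are not optimal are those which have one of the properties in some set `S`. (The nonincidence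
matrix of the faces and the vertices of the convex hull of `ψ` has a cover by `q` rectangles; this is
the case if the convex hull has an extended formulation with `q - 1` inequalities.) -/
def SmallCover (q : ℕ) {N : ℕ} (ψ : (Fin N → Bool) → Prop) : Prop :=
  ∃ β : (Fin N → Bool) → Fin q → Prop, ∀ g : Fin N → Bool → ℝ, ∃ S : Fin q → Prop, ∀ y, ψ y →
    ((∃ l, S l ∧ β y l) ↔ ∃ y', ψ y' ∧ ∑ j, g j (y j) < ∑ j, g j (y' j))

/-- `y` is a permutation matrix of size `K`. The oracle calls for this relation are determinants and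
permanents. -/
def IsPermutation {K : ℕ} (y : Fin (K * K) → Bool) : Prop :=
  ∃ σ : Equiv.Perm (Fin K), ∀ i j, y (finProdFinEquiv (i, j)) = decide (σ i = j)

/-- `y` is the upper triangular matrix of a perfect matching of `K` points. The oracle calls for this
relation are Pfaffians and hafnians. -/
def IsMatching {K : ℕ} (y : Fin (K * K) → Bool) : Prop :=
  ∃ σ : Fin K → Fin K, (∀ i, σ i ≠ i ∧ σ (σ i) = i) ∧
    ∀ i j, y (finProdFinEquiv (i, j)) = decide (i < j ∧ σ i = j)

/-- The operation of the node `v` of a circuit on the weights `w i b`, with oracles for the relations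
`ψ` in `K`: an input, a real constant, a real linear combination (so sums and differences) or a
product of two earlier nodes, or an oracle call: the sum over all `y` in `ψ` of the products of the
earlier nodes `c j (y j)`, with coefficients `κ y ≠ 0` of any sign. -/
inductive Gate (K : ∀ N : ℕ, ((Fin N → Bool) → Prop) → Prop) (n s : ℕ) (v : Fin s) : Type
  | input (i : Fin n) (b : Bool) : Gate K n s v
  | const (c : ℝ) : Gate K n s v
  | linear (A B : ℝ) (a b : Fin s) (ha : a < v) (hb : b < v) : Gate K n s v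
  | mul (a b : Fin s) (ha : a < v) (hb : b < v) : Gate K n s v
  | oracle (N : ℕ) (ψ : (Fin N → Bool) → Prop) (κ : (Fin N → Bool) → ℝ)
      (c : Fin N → Bool → Fin s) (hψ : K N ψ) (hκ : ∀ y, ψ y → κ y ≠ 0)
      (hc : ∀ j b, c j b < v) : Gate K n s v

/-- a circuit with `s` nodes -/
abbrev Circuit (K : ∀ N : ℕ, ((Fin N → Bool) → Prop) → Prop) (n s : ℕ) :=
  ∀ v : Fin s, Gate K n s v

open Classical in
/-- `f` are the values computed by the circuit `R` at the weights `w` with rounding factors `z`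
(`1` plus the relative error): `z v 0` for the result of the operation `v`, and `z v (j + 1)` for
the argument `c j true` of an oracle call `v`. -/
def IsRun {K : ∀ N : ℕ, ((Fin N → Bool) → Prop) → Prop} {n s : ℕ} (R : Circuit K n s)
    (z : Fin s → ℕ → ℝ) (w : Fin n → Bool → ℝ) (f : Fin s → ℝ) : Prop :=
  ∀ v, match R v with
    | .input i b => f v = w i b
    | .const c => f v = c
    | .linear A B a b _ _ => f v = z v 0 * (A * f a + B * f b)
    | .mul a b _ _ => f v = z v 0 * (f a * f b)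
    | .oracle _ ψ κ c _ _ _ => f v = z v 0 * ∑ y, if ψ y then
        κ y * ∏ j, (if y j then z v (j + 1) else 1) * f (c j (y j)) else 0

/-- `A z` holds for generic `z`: whenever some nonzero polynomial does not vanish at `z`. (So it
holds with probability 1 for random `z`, and for some `z` in every box.) -/
def Generically {s : ℕ} (A : (Fin s → ℕ → ℝ) → Prop) : Prop :=
  ∃ P : MvPolynomial (Fin s × ℕ) ℝ, P ≠ 0 ∧
    ∀ z : Fin s → ℕ → ℝ, MvPolynomial.eval (fun q => z q.1 q.2) P ≠ 0 → A z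

/-- With the rounding factors `z`, for all positive weights `w`, the value computed by the node `r`
is between a positive constant times the weight of `Y` and a constant times the weight of `F`. For
`Y = F` this says that it is equal to the weight of `F` up to a constant factor. -/
def Accurate {K : ∀ N : ℕ, ((Fin N → Bool) → Prop) → Prop} {n s : ℕ} (R : Circuit K n s)
    (z : Fin s → ℕ → ℝ) (r : Fin s) (Y F : (Fin n → Bool) → Prop) : Prop :=
  ∃ α β : ℝ, 0 < α ∧ ∀ w : Fin n → Bool → ℝ, (∀ i b, 0 < w i b) → ∀ f : Fin s → ℝ,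
    IsRun R z w f → α * weight Y w ≤ f r ∧ f r ≤ β * weight F w

/-- Numerically stable circuits find few models of `F`: for every circuit with `s` nodes and with
oracles for unions of at most `2 ^ m` sets closed under operations of Schaefer, for generic rounding
factors, if a node is between `Y` and `F` in the sense of `Accurate`, then `Y` has at most
`L * s * 2 ^ m` elements. -/
def HardForStable {n : ℕ} (F : (Fin n → Bool) → Prop) (L : ℝ) : Prop :=
  ∀ (m s : ℕ) (R : Circuit (fun _ ψ => SchaeferUnion m ψ) n s), Generically fun z =>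
    ∀ (r : Fin s) (Y : (Fin n → Bool) → Prop), Accurate R z r Y F →
      (Nat.card {x // Y x} : ℝ) ≤ L * (s * 2 ^ m)

/-- the same operation -/
def toGate {K : ∀ N : ℕ, ((Fin N → Bool) → Prop) → Prop} {n s : ℕ} {v : Fin s} :
    Gate K n s v → Pool.Agent.SFF.Gate K n s v
  | .input i b => .inp i b
  | .const c => .const c
  | .linear A B a b ha hb => .lin A B a b ha hb
  | .mul a b ha hb => .mul a b ha hb
  | .oracle N ψ κ c hψ hκ hc => .orc N ψ κ c hψ hκ hc

theorem run_of {K : ∀ N : ℕ, ((Fin N → Bool) → Prop) → Prop} {n s : ℕ} {R : Circuit K n s}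
    {z : Fin s → ℕ → ℝ} {w : Fin n → Bool → ℝ} {f : Fin s → ℝ}
    (h : Pool.Agent.SFF.IsRun (fun v => toGate (R v)) z w f) : IsRun R z w f := by
  intro v
  have hv := h v
  dsimp only at hv
  generalize R v = g at hv ⊢
  cases g <;> exact hv

theorem accurate_to {K : ∀ N : ℕ, ((Fin N → Bool) → Prop) → Prop} {n s : ℕ} {R : Circuit K n s}
    {z : Fin s → ℕ → ℝ} {r : Fin s} {Y F : (Fin n → Bool) → Prop} (h : Accurate R z r Y F) :
    Pool.Agent.SFF.Approx (fun v => toGate (R v)) z r Y F := by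
  obtain ⟨α, β, hα, h⟩ := h
  exact ⟨α, β, hα, fun w hw f hf => h w hw f (run_of hf)⟩

/-- A generic property holds for some rounding factors close to `1`. -/
theorem generic_near_one {s : ℕ} {A : (Fin s → ℕ → ℝ) → Prop} (hA : Generically A) {η : ℝ}
    (hη : 0 < η) : ∃ z : Fin s → ℕ → ℝ, (∀ v i, |z v i - 1| ≤ η) ∧ A z :=
  Pool.Agent.SFF.thm_Box s A hA η hη

theorem run_to {K : ∀ N : ℕ, ((Fin N → Bool) → Prop) → Prop} {n s : ℕ} {R : Circuit K n s}
    {z : Fin s → ℕ → ℝ} {w : Fin n → Bool → ℝ} {f : Fin s → ℝ} (h : IsRun R z w f) :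
    Pool.Agent.SFF.IsRun (fun v => toGate (R v)) z w f := by
  intro v
  have hv := h v
  dsimp only
  generalize R v = g at hv ⊢
  cases g <;> exact hv

/-- Every circuit has a run. -/
theorem exists_run {K : ∀ N : ℕ, ((Fin N → Bool) → Prop) → Prop} {n s : ℕ} (R : Circuit K n s)
    (z : Fin s → ℕ → ℝ) (w : Fin n → Bool → ℝ) : ∃ f, IsRun R z w f :=
  let ⟨f, hf⟩ := Pool.Agent.SFF.One_run (fun v => toGate (R v)) z w
  ⟨f, run_of hf⟩

/-- the same operation -/
def ofGate {K : ∀ N : ℕ, ((Fin N → Bool) → Prop) → Prop} {n s : ℕ} {v : Fin s} :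
    Pool.Agent.SFF.Gate K n s v → Gate K n s v
  | .inp i b => .input i b
  | .const c => .const c
  | .lin A B a b ha hb => .linear A B a b ha hb
  | .mul a b ha hb => .mul a b ha hb
  | .orc N ψ κ c hψ hκ hc => .oracle N ψ κ c hψ hκ hc

theorem to_of {K : ∀ N : ℕ, ((Fin N → Bool) → Prop) → Prop} {n s : ℕ} {v : Fin s}
    (g : Pool.Agent.SFF.Gate K n s v) : toGate (ofGate g) = g := by
  cases g <;> rfl

theorem hard_of (hA : Pool.Agent.SFF.St_Asm) {n S : ℕ} {F : (Fin n → Bool) → Prop} {L : ℝ}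
    (hS1 : 1 ≤ S) (hS5 : 8 * (S : ℝ) ^ 5 ≤ L) (hdense : Pool.Agent.STD.Dense F S)
    (hthin : Pool.Agent.STS.ThinCl F S) : HardForStable F L := by
  intro m s R
  obtain ⟨P, hP, hred⟩ := Pool.Agent.SFF.Fin_red Pool.Agent.SFF.thm_Gen Pool.Agent.SFF.thm_Bnd hA
    (fun _ ψ => Pool.Agent.SFR.SchUnion m ψ) (fun _ _ => Pool.Agent.SFF.Fin_sch m) n s
    (fun v => toGate (R v))
  refine ⟨P, hP, fun z hz r Y hYA => ?_⟩
  have hL : 0 ≤ L := le_trans (by positivity) hS5
  rcases isEmpty_or_nonempty {x : Fin n → Bool // Y x} with hY | hY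
  · rw [Nat.card_of_isEmpty]
    simp only [Nat.cast_zero]
    positivity
  obtain ⟨⟨x₁, hx₁⟩⟩ := hY
  obtain ⟨R', hR'⟩ := hred z hz r Y F ⟨x₁, hx₁⟩ (accurate_to hYA)
  obtain ⟨E, hE1, hE2⟩ := Pool.Agent.SFR.thm_Sup n m s ⟨R'.val, R'.ok⟩ r Y F 1 1
    one_pos ⟨x₁, hx₁⟩ hR'
  have hw := Pool.Agent.SFR.thm_WlkG Pool.Agent.SFR.thm_Opt n m s E r F S hS1 hdense hthin hE1
  have hw' : ((Nat.card {x // E.val r x} : ℕ) : ℝ) ≤
      ((s : ℝ) + 1) * (2 * (S : ℝ) ^ 5 * 2 ^ m) := by exact_mod_cast hw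
  have hs1 : (1 : ℝ) ≤ s := by
    have : 1 ≤ s := lt_of_le_of_lt (Nat.zero_le _) r.isLt
    exact_mod_cast this
  have hcl0 : Nat.card {x : Fin n → Bool // Y x} ≤ Nat.card {x // E.val r x} :=
    Nat.card_le_card_of_injective (fun x => ⟨x.1, hE2 x.1 x.2⟩) fun x x' hxx' =>
      Subtype.ext (Subtype.mk.inj hxx')
  have hcl : (Nat.card {x : Fin n → Bool // Y x} : ℝ) ≤ Nat.card {x // E.val r x} := by
    exact_mod_cast hcl0
  have h5 : 0 ≤ (S : ℝ) ^ 5 := by positivity
  calc (Nat.card {x : Fin n → Bool // Y x} : ℝ) ≤ ((s : ℝ) + 1) * (2 * (S : ℝ) ^ 5 * 2 ^ m) :=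
        hcl.trans hw'
    _ ≤ (2 * s) * (2 * (S : ℝ) ^ 5 * 2 ^ m) :=
        mul_le_mul_of_nonneg_right (by linarith) (by positivity)
    _ = (4 * (S : ℝ) ^ 5) * (s * 2 ^ m) := by ring
    _ ≤ L * (s * 2 ^ m) := mul_le_mul_of_nonneg_right (by linarith) (by positivity)

/-- (0) In exact arithmetic (all rounding factors are `1`) one oracle call for a 2-CNF is enough: for
every formula `φ` there is a circuit with `2 n + 2` nodes, one of them (`r`) an oracle call for a
2-CNF, the others weights and the constant `1`, such that the value of `r` is the weighted number of models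
of `φ` for all weights.

(1) There are constants `C`, `D` such that the following holds for every `k ≥ 2`, with
`ε = (log k) ^ 2 / k`, for all large `n` and all `M ≥ ⌊D ε n 2 ^ k⌋`. All but a fraction `2 ^ (- n)`
of the formulas `φ` with `M` clauses of `k` literals in `n` variables are hard for stable circuits
with the constant `L = 2 ^ (C ε n)`. For all but a fraction `2 ^ (- ε n)` of the pairs of such a
formula `φ` and a model of `φ` (in other words, with probability `1 - 2 ^ (- ε n)` for a random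
formula with a planted model), `φ` has moreover at least
`2 ^ (- 2 ε n) * (2 ^ n * (1 - 2 ^ (- k)) ^ M)` models. So every numerically stable algorithm for the
weighted number of models of `φ` has at least `2 ^ (- C ε n) #φ / 2 ^ m` steps; for
`M = ⌊D ε n 2 ^ k⌋` this is `2 ^ ((1 - O(ε)) n)`.

(2) For every `m` there is a formula `φ` with clauses of `3` literals, `m ^ 2` variables, at most
`3 m ^ 2` clauses and `2 ^ m` models such that in the same way
`(#Y) ^ 2 ≤ 3 ^ m * s * (s + q + (m + 1) 2 ^ u)`, where now also oracles for all relations with a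
cover by `q` properties are allowed. So exponentially many steps are necessary even if (3)
determinants, permanents, Pfaffians, hafnians and signed sums over the bases of a matroid may be
computed in one step.

(4) Generic rounding factors can be as close to `1` as you like. -/
theorem result :
    (∀ (n k M : ℕ) (φ : Formula n k M),
      ∃ (R : Circuit (fun _ ψ => TwoCNF ψ ∧ SchaeferUnion 0 ψ) n (2 * n + 2)) (r : Fin (2 * n + 2)),
        (∃ N ψ κ c hψ hκ hc, R r = .oracle N ψ κ c hψ hκ hc) ∧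
        (∀ v, v ≠ r → (∃ i b, R v = .input i b) ∨ R v = .const 1) ∧
        ∀ w : Fin n → Bool → ℝ, ∃ f : Fin (2 * n + 2) → ℝ,
          IsRun R (fun _ _ => 1) w f ∧ f r = weight (Sat φ) w) ∧
    (∃ C D : ℝ, 0 < D ∧ ∀ k : ℕ, 2 ≤ k → ∃ n₀ : ℕ, ∀ n : ℕ, n₀ ≤ n →
      ∀ ε : ℝ, ε = Real.log k ^ 2 / k → ∀ M : ℕ, ⌊D * ε * n * 2 ^ k⌋₊ ≤ M →
      2 ^ n * Nat.card {φ : Formula n k M // ¬ HardForStable (Sat φ) ((2 : ℝ) ^ (C * ε * n))} ≤
        Nat.card (Formula n k M) ∧
      (Nat.card {p : Formula n k M × (Fin n → Bool) // Sat p.1 p.2 ∧ ¬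
        (HardForStable (Sat p.1) ((2 : ℝ) ^ (C * ε * n)) ∧
          (2 : ℝ) ^ (-(2 * ε * n)) * (2 ^ n * (1 - (1 / 2) ^ k) ^ M) ≤
            Nat.card {x // Sat p.1 x})} : ℝ) ≤
        (2 : ℝ) ^ (-(ε * n)) * Nat.card {p : Formula n k M × (Fin n → Bool) // Sat p.1 p.2}) ∧
    (∀ m : ℕ, ∃ M : ℕ, M ≤ 3 * (m * m) ∧ ∃ φ : Formula (m * m) 3 M,
      Nat.card {x // Sat φ x} = 2 ^ m ∧
      ∀ (u q s : ℕ) (R : Circuit (fun _ ψ => SchaeferUnion u ψ ∨ SmallCover q ψ) (m * m) s),
        Generically fun z => ∀ (r : Fin s) (Y : (Fin (m * m) → Bool) → Prop),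
          Accurate R z r Y (Sat φ) →
            Nat.card {x // Y x} ^ 2 ≤ 3 ^ m * (s * (s + q + (m + 1) * 2 ^ u))) ∧
    (∀ K : ℕ, SmallCover (K * K + 1) (IsPermutation (K := K)) ∧
      SmallCover ((K * K) ^ 2) (IsMatching (K := K)) ∧ ∀ B : Matroid (Fin K),
        SmallCover ((2 * K) ^ 2) fun y : Fin K → Bool => B.IsBase {i | y i = true}) ∧
    ∀ (s : ℕ) (A : (Fin s → ℕ → ℝ) → Prop), Generically A → ∀ η : ℝ, 0 < η →
      ∃ z : Fin s → ℕ → ℝ, (∀ v i, |z v i - 1| ≤ η) ∧ A z := by
  have hA := Pool.Agent.SFF.thm_Asm Pool.Agent.SFF.thm_Blk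
  refine ⟨fun n k M φ => ?_, ?_, fun m => ?_, fun K => ⟨?_, Pool.Agent.SFP.thm_Haf K, fun B =>
    Pool.Agent.SFP.thm_Exc _ _ (Pool.Agent.SFP.thm_Mat K B)⟩,
    fun s A hA' η hη => Pool.Agent.SFF.thm_Box s A hA' η hη⟩
  · have hK : TwoCNF (Pool.Agent.SFF.One_cnv (n := n) (M := M) fun j l => ∃ i, φ j i = l) ∧
        SchaeferUnion 0 (Pool.Agent.SFF.One_cnv (n := n) (M := M) fun j l => ∃ i, φ j i = l) :=
      ⟨⟨M * k, Pool.Agent.SFP.two φ, fun y => Pool.Agent.SFF.Onc_two φ y⟩,
        Pool.Agent.SFF.One_union 0 _⟩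
    let R := Pool.Agent.SFF.Onc_circ (n := n) (M := M) (fun _ ψ => TwoCNF ψ ∧ SchaeferUnion 0 ψ)
      (fun j l => ∃ i, φ j i = l) hK
    refine ⟨fun v => ofGate (R v), ⟨2 * n + 1, by omega⟩, ?_, fun v hv => ?_, fun w => ?_⟩
    · obtain ⟨N, ψ, κ, c, hψ, hκ, hc, h⟩ := Pool.Agent.SFF.Onc_last (n := n) (M := M)
          (fun _ ψ => TwoCNF ψ ∧ SchaeferUnion 0 ψ) (fun j l => ∃ i, φ j i = l) hK
      exact ⟨N, ψ, κ, c, hψ, hκ, hc, congrArg ofGate h⟩
    · rcases Pool.Agent.SFF.Onc_nodes (n := n) (M := M)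
          (fun _ ψ => TwoCNF ψ ∧ SchaeferUnion 0 ψ) (fun j l => ∃ i, φ j i = l) hK v hv with ⟨i, b, h⟩ | h
      · exact Or.inl ⟨i, b, congrArg ofGate h⟩
      · exact Or.inr (congrArg ofGate h)
    obtain ⟨f, hf'⟩ := Pool.Agent.SFF.One_run R (fun _ _ => 1) w
    refine ⟨f, run_of ?_, ?_⟩
    · simp only [to_of]
      exact hf'
    rw [Pool.Agent.SFF.Onc_exact (fun _ ψ => TwoCNF ψ ∧ SchaeferUnion 0 ψ)
      (fun j l => ∃ i, φ j i = l) hK w f hf']
    unfold Pool.Agent.STD.wcount weight
    refine Finset.sum_congr rfl fun x _ => ?_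
    have hiff : (∀ j, ∃ l, (∃ i, φ j i = l) ∧ x l.1 = l.2) ↔ Sat φ x := by
      refine forall_congr' fun j => ⟨?_, ?_⟩
      · rintro ⟨l, ⟨i, rfl⟩, h⟩
        exact ⟨i, h⟩
      · rintro ⟨i, h⟩
        exact ⟨_, ⟨i, rfl⟩, h⟩
    by_cases h : Sat φ x
    · rw [if_pos (hiff.2 h), if_pos h]
    · rw [if_neg (mt hiff.1 h), if_neg h]
  · obtain ⟨C, D, hD, hC⟩ := Pool.Agent.STP.thm_Two (Pool.Agent.STP.thm_Cor
      (Pool.Agent.STS.thm_SumL (Pool.Agent.STH.thm_Cyl Pool.Agent.STH.thm_Nod)
        (Pool.Agent.STS.thm_CylL Pool.Agent.STS.thm_NodL) Pool.Agent.STS.thm_PthL)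
      Pool.Agent.STH.thm_Bal
      (Pool.Agent.STP.thm_Bad (Pool.Agent.STH.thm_One Pool.Agent.STH.thm_Cls
        Pool.Agent.STH.thm_Tup Pool.Agent.STH.thm_Bal) Pool.Agent.STD.thm_Grd
        Pool.Agent.STS.thm_Tri)
      Pool.Agent.STD.thm_Den Pool.Agent.STS.thm_Scl Pool.Agent.STS.thm_Afd)
      Pool.Agent.STP.thm_Tot Pool.Agent.STP.thm_Few Pool.Agent.STP.thm_Ext
    refine ⟨C, D, hD, fun k hk => ?_⟩
    obtain ⟨n₀, hn₀⟩ := hC k hk
    refine ⟨n₀, fun n hn ε hε M hM => ?_⟩
    obtain ⟨hu, hp⟩ := hn₀ n hn ε hε M hM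
    have hgd : ∀ φ : Formula n k M,
        Pool.Agent.STP.Gd (Pool.Agent.STH.Mod φ) ((2 : ℝ) ^ (C * ε * n)) →
        HardForStable (Sat φ) ((2 : ℝ) ^ (C * ε * n)) := by
      rintro φ ⟨S, hS1, hS5, hdense, hthin, -⟩
      exact hard_of hA hS1 hS5 hdense hthin
    refine ⟨le_trans (Nat.mul_le_mul_left _ ?_) hu, le_trans (Nat.cast_le.mpr ?_) hp⟩
    · refine Nat.card_le_card_of_injective (fun φ => ⟨φ.1, fun hc => φ.2 (hgd φ.1 hc)⟩) ?_
      intro φ φ' h
      exact Subtype.ext (congrArg Subtype.val h :)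
    · refine Nat.card_le_card_of_injective
        (fun p => ⟨p.1, p.2.1, fun hc => p.2.2 ⟨hgd p.1.1 hc.2.1, hc.1⟩⟩) ?_
      intro p p' hpp
      exact Subtype.ext (congrArg Subtype.val hpp :)
  · obtain ⟨⟨M, hM, φ, hφ⟩, hcard⟩ := Pool.Agent.SFP.thm_EncX Pool.Agent.SFP.thm_Enc
      (finProdFinEquiv (m := m) (n := m))
    have hset : Pool.Agent.SFP.Cor (finProdFinEquiv (m := m) (n := m)) = Sat φ :=
      funext fun x => propext (hφ x).symm
    refine ⟨M, hM, φ, hset ▸ hcard, fun u q s R => ?_⟩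
    obtain ⟨P, hP, hred⟩ := Pool.Agent.SFF.Fin_red Pool.Agent.SFF.thm_Gen Pool.Agent.SFF.thm_Bnd hA
      (fun _ ψ => SchaeferUnion u ψ ∨ SmallCover q ψ)
      (fun _ _ h => Or.inl (Pool.Agent.SFF.Fin_sch u h)) (m * m) s (fun v => toGate (R v))
    refine ⟨P, hP, fun z hz r Y hYA => ?_⟩
    rcases isEmpty_or_nonempty {x : Fin (m * m) → Bool // Y x} with hY | hY
    · rw [Nat.card_of_isEmpty]
      exact Nat.zero_le _
    obtain ⟨⟨x₁, hx₁⟩⟩ := hY
    obtain ⟨R', hR'⟩ := hred z hz r Y (Sat φ) ⟨x₁, hx₁⟩ (accurate_to hYA)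
    rw [← hset] at hR'
    refine Pool.Agent.SFP.thm_FinX Pool.Agent.SFP.thm_SupK
      Pool.Agent.SFP.thm_Yan Pool.Agent.SFP.thm_Sbc Pool.Agent.SFP.thm_Cov
      (Pool.Agent.SFP.thm_DecC Pool.Agent.SFP.thm_Lin Pool.Agent.SFP.thm_Prm
        Pool.Agent.SFP.thm_Thn Pool.Agent.SFR.thm_Opt Pool.Agent.SFP.thm_Sbc
        Pool.Agent.SFP.thm_Cov Pool.Agent.SFP.thm_KWC) _ u q s ⟨R'.val, fun v => ?_⟩ r Y 1 1
      one_pos hR'
    rcases R'.ok v with h5 | ⟨N, ψ, c, hψ, h6⟩
    · exact Or.inl h5
    · rcases hψ with hψ | hψ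
      · exact Or.inr ⟨N, ψ, c, Or.inl hψ, h6⟩
      · exact Or.inr ⟨N, ψ, c, Or.inr (Or.inr hψ), h6⟩
  · exact Pool.Agent.SFP.thm_Cov.1 _ _ _ (Pool.Agent.SFP.thm_Yan _ _ _ (Pool.Agent.SFP.thm_Bir K))

end Pool.Agent.Results.MP_4ed1f9_lc.StableAlgorithms
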