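import Pool.Agent.SEL.All

/-!
# MP_4ed1f9_lc: model counting with branching, caching, joins, early elimination and subtraction

Let `E` be a monotone `k`-CNF. For a set `A` of clauses and a set `Y` of variables, all clauses of
which are in `A` (`Closed E A Y`), the partial count `part A Y x` is the number of assignments which
agree with `x` outside `Y` and satisfy all clauses in `A`. The partial counts, restricted to cubes,
are the intermediate results of the algorithms for `#SAT` which combine branching, caching of
subproblems, decomposition into components, joins of the results for sets of clauses, early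
elimination of variables by summation (in any order), and inclusion-exclusion. Here they are stored
as arithmetic circuits with decomposable products and arbitrary real linear combinations, and all
functions of `(1 - ε) n` variables are free.

The definitions are in `Pool/Agent/SEL/Model.lean` (partial counts, hardness, runs),
`Pool/Agent/VD/ADef.lean` (arithmetic circuits), `Pool/Agent/VD/GK.lean` (`GateKind`) and
`Pool/Agent/VD/Rk.lean` (`Cube`, `Dep`, `Bal`, `RkLe`).
-/

set_option autoImplicit false

namespace Pool.Agent.Results.MP_4ed1f9_lc.StableElimination

open Finset Pool.Agent.VD Pool.Agent.SEL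

/-- For all `ε` in `(0, 1 / 3]` and `t ≥ 1` there are `c > 0`, `C` and `k ≥ 1` such that for every
`n` there is a monotone `k`-CNF `E` with `n` variables, each in at most `C` clauses, such that

* the partial count for `A`, `Y` is hard whenever `A` contains at least `ε |E|` clauses and at most
  `(1 - ε) |E|` clauses, or at most `c n` variables have been eliminated (`A = E`, `Y = ∅` is the
  formula itself);
* each run of an algorithm as above which uses at most `t` earlier results at a time has at least
  `2 ^ (c n)` subproblems, or a subproblem the result of which is hard on its cube, even if all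
  results for at most `(1 - ε) |E| / t` clauses are free and `ε |E| / 2` clauses may be missing in
  each step.

In particular this holds for deterministic circuits with few nested negations and for deterministic
trees with any negations, since they are stable on each set of points. -/
theorem result (ε : ℝ) (hε0 : 0 < ε) (hε : ε ≤ 1 / 3) (t : ℕ) (ht : 1 ≤ t) :
    (∃ c : ℝ, 0 < c ∧ ∃ C k : ℕ, 1 ≤ k ∧ ∀ n : ℕ, ∃ E : Finset (Finset (Fin n)),
      (∀ D ∈ E, D.card = k) ∧ (∀ v, (E.filter fun D => v ∈ D).card ≤ C) ∧
      (∀ (A : Finset (Finset (Fin n))) (Y : Finset (Fin n)), Closed E A Y →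
        ε * E.card ≤ A.card → ((A.card : ℝ) ≤ (1 - ε) * E.card ∨ (Y.card : ℝ) ≤ c * n) →
        Hard ε c C A Y) ∧
      ∀ (N : ℕ) (A : Fin N → Finset (Finset (Fin n))) (Y F : Fin N → Finset (Fin n))
        (r : Fin N → Cube n), Run E t ((1 - ε) * E.card) (ε / 2 * E.card) A Y F r →
        (∃ i, A i = E ∧ F i = ∅) →
        (2 : ℝ) ^ (c * n) ≤ N ∨ ∃ i, HardOn ε c C (A i) (Y i) (F i) (r i)) ∧
    ∀ (n W s : ℕ) (P : Arith n ε W s) (g : Fin s) (Q : Finset (Cube n)), P.IsDD →
      (∀ m : ℕ, P.Nested g m → StableOn P Q g (∑ i ∈ range (m + 1), P.nots.choose i)) ∧
      (P.Tree → StableOn P Q g 1) :=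
  ⟨Main_all ε hε0 hε t ht, fun n W s P g Q h => thm_Ins n ε W s P g Q hε0 hε h⟩

end Pool.Agent.Results.MP_4ed1f9_lc.StableElimination
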